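import Mathlib

/-!
# The count for the equations `n₁ + n₂ = m₁ + m₂`, `n₁ n₂` near `m₁ m₂`
-/

set_option autoImplicit false

namespace Pool.Agent.X111.AT

open Finset

/-- `1 / |x|`, and `0` at `0` -/
noncomputable def rr (x : ℤ) : ℝ := 1 / |(x : ℝ)|

theorem rr_nonneg (x : ℤ) : 0 ≤ rr x := by unfold rr; positivity

theorem harm (N : ℕ) : ∑ d ∈ Icc 1 N, (1 : ℝ) / d ≤ 1 + Real.log N := by
  have h := harmonic_le_one_add_log N
  rw [harmonic_eq_sum_Icc] at h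
  push_cast at h
  simpa [one_div] using h

theorem sum_rr (N p : ℕ) (hp : p ∈ Icc 1 N) :
    ∑ q ∈ Icc 1 N, rr ((p : ℤ) - q) ≤ 2 * (1 + Real.log N) := by
  have h1 : ∀ q ∈ Icc 1 N, rr ((p : ℤ) - q) ≤
      ∑ d ∈ Icc 1 N, ((1 : ℝ) / d) * ((if q + d = p then 1 else 0) + (if p + d = q then 1 else 0)) := by
    intro q hq
    rw [mem_Icc] at hq hp
    have hnn : ∀ d ∈ Icc 1 N,
        0 ≤ ((1 : ℝ) / d) * ((if q + d = p then 1 else 0) + (if p + d = q then 1 else 0)) := by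
      intro d _
      apply mul_nonneg (by positivity)
      split_ifs <;> norm_num
    rcases lt_trichotomy q p with h | h | h
    · refine le_trans ?_ (single_le_sum hnn (mem_Icc.2 ⟨by omega, by omega⟩ : p - q ∈ Icc 1 N))
      rw [if_pos (by omega : q + (p - q) = p), if_neg (by omega : ¬ p + (p - q) = q), add_zero, mul_one]
      unfold rr
      rw [Nat.cast_sub h.le, abs_of_nonneg]
      · push_cast
        exact le_rfl
      · push_cast
        have : (q : ℝ) ≤ p := by exact_mod_cast h.le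
        linarith
    · subst h
      have : rr ((q : ℤ) - q) = 0 := by unfold rr; simp
      rw [this]
      exact sum_nonneg hnn
    · refine le_trans ?_ (single_le_sum hnn (mem_Icc.2 ⟨by omega, by omega⟩ : q - p ∈ Icc 1 N))
      rw [if_neg (by omega : ¬ q + (q - p) = p), if_pos (by omega : p + (q - p) = q), zero_add, mul_one]
      unfold rr
      rw [Nat.cast_sub h.le, abs_of_nonpos]
      · push_cast
        rw [neg_sub]
      · push_cast
        have : (p : ℝ) ≤ q := by exact_mod_cast h.le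
        linarith
  refine (sum_le_sum h1).trans ?_
  rw [sum_comm]
  have h2 : ∀ d ∈ Icc 1 N, ∑ q ∈ Icc 1 N,
      ((1 : ℝ) / d) * ((if q + d = p then 1 else 0) + (if p + d = q then 1 else 0)) ≤ ((1 : ℝ) / d) * 2 := by
    intro d _
    rw [← mul_sum]
    apply mul_le_mul_of_nonneg_left _ (by positivity)
    rw [sum_add_distrib]
    have e1 : ∑ q ∈ Icc 1 N, (if q + d = p then (1 : ℝ) else 0) ≤ 1 := by
      rw [← Finset.sum_filter, Finset.sum_const, nsmul_eq_mul, mul_one]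
      exact_mod_cast Finset.card_le_one.2 (by
        intro x hx y hy
        rw [mem_filter] at hx hy
        omega)
    have e2 : ∑ q ∈ Icc 1 N, (if p + d = q then (1 : ℝ) else 0) ≤ 1 := by
      rw [← Finset.sum_filter, Finset.sum_const, nsmul_eq_mul, mul_one]
      exact_mod_cast Finset.card_le_one.2 (by
        intro x hx y hy
        rw [mem_filter] at hx hy
        omega)
    linarith
  refine (sum_le_sum h2).trans ?_
  rw [← sum_mul]
  have := harm N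
  linarith

theorem log_sub_ge {A B M : ℝ} (hA : 0 < A) (hB : 0 < B) (hAM : A ≤ M) (hBM : B ≤ M) :
    |A - B| / M ≤ |Real.log A - Real.log B| := by
  have key : ∀ x y : ℝ, 0 < x → x ≤ y → y ≤ M → (y - x) / M ≤ Real.log y - Real.log x := by
    intro x y hx hxy hy
    have hy0 : 0 < y := hx.trans_le hxy
    have h1 : Real.log (x / y) ≤ x / y - 1 := Real.log_le_sub_one_of_pos (by positivity)
    rw [Real.log_div hx.ne' hy0.ne'] at h1
    have h2 : (y - x) / M ≤ (y - x) / y := div_le_div_of_nonneg_left (by linarith) hy0 hy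
    have h3 : (y - x) / y = 1 - x / y := by field_simp
    linarith
  rcases le_total A B with h | h
  · rw [abs_sub_comm A B, abs_sub_comm (Real.log A), abs_of_nonneg (by linarith),
      abs_of_nonneg (sub_nonneg.2 (Real.log_le_log hA h))]
    exact key A B hA h hBM
  · rw [abs_of_nonneg (by linarith), abs_of_nonneg (sub_nonneg.2 (Real.log_le_log hB h))]
    exact key B A hB h hAM

/-- the weight -/
noncomputable def ww (N : ℕ) (U : ℝ) (p1 q1 q2 : ℕ) : ℝ :=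
  (if p1 = q1 then U else 0) + (if p1 = q2 then U else 0) +
    2 * (N : ℝ) ^ 2 * (rr ((p1 : ℤ) - q1) * rr ((p1 : ℤ) - q2))

theorem ww_nonneg (N : ℕ) {U : ℝ} (hU : 0 ≤ U) (p1 q1 q2 : ℕ) : 0 ≤ ww N U p1 q1 q2 := by
  unfold ww
  have h1 := rr_nonneg ((p1 : ℤ) - q1)
  have h2 := rr_nonneg ((p1 : ℤ) - q2)
  have h3 : 0 ≤ (if p1 = q1 then U else 0) := by split_ifs <;> simp [hU]
  have h4 : 0 ≤ (if p1 = q2 then U else 0) := by split_ifs <;> simp [hU]
  positivity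

theorem term_le (N : ℕ) {U : ℝ} (hU : 0 ≤ U) {p1 p2 q1 q2 : ℕ} (hp1 : p1 ∈ Icc 1 N) (hp2 : p2 ∈ Icc 1 N)
    (hq1 : q1 ∈ Icc 1 N) (hq2 : q2 ∈ Icc 1 N) (h : p1 + p2 = q1 + q2) :
    (if Real.log p1 + Real.log p2 = Real.log q1 + Real.log q2 then U
      else 2 / |(Real.log p1 + Real.log p2) - (Real.log q1 + Real.log q2)|) ≤ ww N U p1 q1 q2 := by
  rw [mem_Icc] at hp1 hp2 hq1 hq2
  have a1 : (1 : ℝ) ≤ p1 := by exact_mod_cast hp1.1
  have a2 : (1 : ℝ) ≤ p2 := by exact_mod_cast hp2.1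
  have a3 : (1 : ℝ) ≤ q1 := by exact_mod_cast hq1.1
  have a4 : (1 : ℝ) ≤ q2 := by exact_mod_cast hq2.1
  have b1 : (p1 : ℝ) ≤ N := by exact_mod_cast hp1.2
  have b2 : (p2 : ℝ) ≤ N := by exact_mod_cast hp2.2
  have b3 : (q1 : ℝ) ≤ N := by exact_mod_cast hq1.2
  have b4 : (q2 : ℝ) ≤ N := by exact_mod_cast hq2.2
  have hN : (1 : ℝ) ≤ N := a1.trans b1
  have hR : (p1 : ℝ) + p2 = q1 + q2 := by exact_mod_cast h
  rw [← Real.log_mul (by positivity) (by positivity), ← Real.log_mul (by positivity) (by positivity)]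
  have hprod : (p1 : ℝ) * p2 - q1 * q2 = -((p1 - q1) * (p1 - q2)) := by
    have : (p2 : ℝ) = q1 + q2 - p1 := by linarith
    rw [this]
    ring
  have n3 : 0 ≤ 2 * (N : ℝ) ^ 2 * (rr ((p1 : ℤ) - q1) * rr ((p1 : ℤ) - q2)) := by
    have h1 := rr_nonneg ((p1 : ℤ) - q1)
    have h2 := rr_nonneg ((p1 : ℤ) - q2)
    positivity
  by_cases c1 : p1 = q1
  · have e : (p1 : ℝ) * p2 = q1 * q2 := by
      have : (p1 : ℝ) = q1 := by exact_mod_cast c1
      have := hprod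
      rw [‹(p1 : ℝ) = q1›] at this ⊢
      nlinarith
    rw [if_pos (by rw [e])]
    unfold ww
    rw [if_pos c1]
    have : 0 ≤ (if p1 = q2 then U else 0) := by split_ifs <;> simp [hU]
    linarith
  by_cases c2 : p1 = q2
  · have e : (p1 : ℝ) * p2 = q1 * q2 := by
      have : (p1 : ℝ) = q2 := by exact_mod_cast c2
      have := hprod
      rw [‹(p1 : ℝ) = q2›] at this ⊢
      nlinarith
    rw [if_pos (by rw [e])]
    unfold ww
    rw [if_pos c2]
    have : 0 ≤ (if p1 = q1 then U else 0) := by split_ifs <;> simp [hU]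
    linarith
  have d1 : (p1 : ℝ) - q1 ≠ 0 := sub_ne_zero.2 (by exact_mod_cast c1)
  have d2 : (p1 : ℝ) - q2 ≠ 0 := sub_ne_zero.2 (by exact_mod_cast c2)
  have hM1 : (p1 : ℝ) * p2 ≤ (N : ℝ) ^ 2 := by nlinarith
  have hM2 : (q1 : ℝ) * q2 ≤ (N : ℝ) ^ 2 := by nlinarith
  have hlog := log_sub_ge (A := (p1 : ℝ) * p2) (B := (q1 : ℝ) * q2) (M := (N : ℝ) ^ 2)
    (by positivity) (by positivity) hM1 hM2
  rw [hprod, abs_neg, abs_mul] at hlog
  have hpos : 0 < |(p1 : ℝ) - q1| * |(p1 : ℝ) - q2| / (N : ℝ) ^ 2 := by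
    have := abs_pos.2 d1
    have := abs_pos.2 d2
    positivity
  have hne : ¬ Real.log ((p1 : ℝ) * p2) = Real.log ((q1 : ℝ) * q2) := by
    intro h0
    rw [h0, sub_self, abs_zero] at hlog
    linarith
  rw [if_neg hne]
  unfold ww
  rw [if_neg c1, if_neg c2, zero_add, zero_add]
  calc 2 / |Real.log ((p1 : ℝ) * p2) - Real.log ((q1 : ℝ) * q2)|
      ≤ 2 / (|(p1 : ℝ) - q1| * |(p1 : ℝ) - q2| / (N : ℝ) ^ 2) :=
        div_le_div_of_nonneg_left (by norm_num) hpos hlog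
    _ = 2 * (N : ℝ) ^ 2 * (rr ((p1 : ℤ) - q1) * rr ((p1 : ℤ) - q2)) := by
        unfold rr
        push_cast
        have := abs_pos.2 d1
        have := abs_pos.2 d2
        field_simp

theorem sum_ww (N : ℕ) (U : ℝ) (hU : 0 ≤ U) (p1 : ℕ) (hp : p1 ∈ Icc 1 N) :
    ∑ q1 ∈ Icc 1 N, ∑ q2 ∈ Icc 1 N, ww N U p1 q1 q2 ≤
      2 * (N * U) + 8 * (N : ℝ) ^ 2 * (1 + Real.log N) ^ 2 := by
  unfold ww
  simp_rw [sum_add_distrib]
  have hN0 : (0 : ℝ) ≤ N := Nat.cast_nonneg N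
  have e1 : ∑ q1 ∈ Icc 1 N, ∑ _q2 ∈ Icc 1 N, (if p1 = q1 then U else 0) ≤ N * U := by
    rw [sum_comm]
    simp only [sum_ite_eq, hp, if_true, sum_const, Nat.card_Icc, nsmul_eq_mul]
    simp
  have e2 : ∑ _q1 ∈ Icc 1 N, ∑ q2 ∈ Icc 1 N, (if p1 = q2 then U else 0) ≤ N * U := by
    simp only [sum_ite_eq, hp, if_true, sum_const, Nat.card_Icc, nsmul_eq_mul]
    simp
  have e3 : ∑ q1 ∈ Icc 1 N, ∑ q2 ∈ Icc 1 N, 2 * (N : ℝ) ^ 2 * (rr ((p1 : ℤ) - q1) * rr ((p1 : ℤ) - q2)) ≤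
      8 * (N : ℝ) ^ 2 * (1 + Real.log N) ^ 2 := by
    have h1 : ∑ q1 ∈ Icc 1 N, ∑ q2 ∈ Icc 1 N, 2 * (N : ℝ) ^ 2 * (rr ((p1 : ℤ) - q1) * rr ((p1 : ℤ) - q2)) =
        2 * (N : ℝ) ^ 2 * (∑ q ∈ Icc 1 N, rr ((p1 : ℤ) - q)) ^ 2 := by
      rw [sq (∑ q ∈ Icc 1 N, rr ((p1 : ℤ) - q)), Finset.sum_mul_sum, mul_sum]
      refine sum_congr rfl fun q1 _ => ?_
      rw [mul_sum]
    rw [h1]
    have h2 := sum_rr N p1 hp
    have h3 : 0 ≤ ∑ q ∈ Icc 1 N, rr ((p1 : ℤ) - q) := sum_nonneg fun q _ => rr_nonneg _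
    have h4 := pow_le_pow_left₀ h3 h2 2
    nlinarith [sq_nonneg (N : ℝ)]
  linarith

/-- the full count -/
theorem count (N : ℕ) (U : ℝ) (hU : 0 ≤ U) :
    ∑ p ∈ Icc 1 N ×ˢ Icc 1 N, ∑ q ∈ Icc 1 N ×ˢ Icc 1 N,
      (if ((p.1 + p.2 : ℕ) : ℤ) = ((q.1 + q.2 : ℕ) : ℤ) then
        (if Real.log p.1 + Real.log p.2 = Real.log q.1 + Real.log q.2 then U
          else 2 / |(Real.log p.1 + Real.log p.2) - (Real.log q.1 + Real.log q.2)|) else 0) ≤
      2 * (N : ℝ) ^ 2 * U + 8 * (N : ℝ) ^ 3 * (1 + Real.log N) ^ 2 := by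
  have h1 : ∀ p ∈ Icc 1 N ×ˢ Icc 1 N, ∀ q ∈ Icc 1 N ×ˢ Icc 1 N,
      (if ((p.1 + p.2 : ℕ) : ℤ) = ((q.1 + q.2 : ℕ) : ℤ) then
        (if Real.log p.1 + Real.log p.2 = Real.log q.1 + Real.log q.2 then U
          else 2 / |(Real.log p.1 + Real.log p.2) - (Real.log q.1 + Real.log q.2)|) else 0) ≤
      (if p.1 + p.2 = q.1 + q.2 then ww N U p.1 q.1 q.2 else 0) := by
    intro p hp q hq
    rw [mem_product] at hp hq
    by_cases h : p.1 + p.2 = q.1 + q.2
    · rw [if_pos (by exact_mod_cast h), if_pos h]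
      exact term_le N hU hp.1 hp.2 hq.1 hq.2 h
    · rw [if_neg (by exact_mod_cast h), if_neg h]
  refine (sum_le_sum fun p hp => sum_le_sum fun q hq => h1 p hp q hq).trans ?_
  rw [sum_product]
  have h2 : ∀ p1 ∈ Icc 1 N, ∑ p2 ∈ Icc 1 N, ∑ q ∈ Icc 1 N ×ˢ Icc 1 N,
      (if p1 + p2 = q.1 + q.2 then ww N U p1 q.1 q.2 else 0) ≤
      2 * (N * U) + 8 * (N : ℝ) ^ 2 * (1 + Real.log N) ^ 2 := by
    intro p1 hp1
    rw [sum_comm]
    refine le_trans ?_ (sum_ww N U hU p1 hp1)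
    rw [← Finset.sum_product' (f := fun q1 q2 => ww N U p1 q1 q2)]
    refine sum_le_sum fun q _ => ?_
    have hw := ww_nonneg N hU p1 q.1 q.2
    rw [← Finset.sum_filter, Finset.sum_const, nsmul_eq_mul]
    have hc : (((Icc 1 N).filter (fun p2 => p1 + p2 = q.1 + q.2)).card : ℝ) ≤ 1 := by
      exact_mod_cast Finset.card_le_one.2 (by
        intro x hx y hy
        rw [mem_filter] at hx hy
        omega)
    nlinarith
  refine (sum_le_sum h2).trans ?_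
  rw [sum_const, Nat.card_Icc, nsmul_eq_mul]
  apply le_of_eq
  push_cast
  ring

end Pool.Agent.X111.AT
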