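import Pool.Agent.X111.AT.Main

/-!
# The fourth moment for curved phases, over the parameter and an additive twist
-/

set_option autoImplicit false

namespace Pool.Agent.X111.AT

open Finset MeasureTheory

theorem mvt_abs {g g' : ℝ → ℝ} {a b m : ℝ} (h : ∀ z ∈ Set.uIcc a b, HasDerivAt g (g' z) z)
    (hm : ∀ z ∈ Set.uIcc a b, m ≤ |g' z|) : m * |b - a| ≤ |g b - g a| := by
  have key : ∀ u v : ℝ, u < v → (∀ z ∈ Set.Icc u v, HasDerivAt g (g' z) z) →
      (∀ z ∈ Set.Icc u v, m ≤ |g' z|) → m * (v - u) ≤ |g v - g u| := by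
    intro u v huv h1 h2
    obtain ⟨z, hz, hz2⟩ := exists_hasDerivAt_eq_slope g g' huv
      (fun w hw => (h1 w hw).continuousAt.continuousWithinAt)
      (fun w hw => h1 w (Set.Ioo_subset_Icc_self hw))
    have h3 := h2 z (Set.Ioo_subset_Icc_self hz)
    rw [hz2, abs_div, abs_of_pos (by linarith : 0 < v - u), le_div_iff₀ (by linarith)] at h3
    exact h3
  rcases lt_trichotomy a b with hab | hab | hab
  · rw [Set.uIcc_of_le hab.le] at h hm
    rw [abs_of_pos (by linarith : 0 < b - a)]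
    exact key a b hab h hm
  · subst hab
    simp
  · rw [Set.uIcc_of_ge hab.le] at h hm
    rw [abs_sub_comm b a, abs_of_pos (by linarith : 0 < a - b), abs_sub_comm (g b)]
    exact key b a hab h hm

theorem curv {f f' f'' : ℝ → ℝ} {A B m : ℝ}
    (h1 : ∀ z ∈ Set.Icc A B, HasDerivAt f (f' z) z)
    (h2 : ∀ z ∈ Set.Icc A B, HasDerivAt f' (f'' z) z) (h3 : ∀ z ∈ Set.Icc A B, m ≤ |f'' z|)
    {p1 p2 q1 q2 : ℝ} (hp1 : p1 ∈ Set.Icc A B) (hp2 : p2 ∈ Set.Icc A B) (hq1 : q1 ∈ Set.Icc A B)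
    (hq2 : q2 ∈ Set.Icc A B) (h : p1 + p2 = q1 + q2) :
    m * |p1 - q2| * |p1 - q1| ≤ |f p1 + f p2 - (f q1 + f q2)| := by
  set y := p1 - q2 with hy
  have hy2 : q1 - y = p2 := by rw [hy]; linarith
  have hy1 : p1 - y = q2 := by rw [hy]; ring
  have hsub : ∀ z ∈ Set.uIcc q1 p1, z ∈ Set.Icc A B ∧ z - y ∈ Set.Icc A B := by
    intro z hz
    rw [Set.mem_uIcc] at hz
    rw [Set.mem_Icc] at hp1 hp2 hq1 hq2
    rw [Set.mem_Icc, Set.mem_Icc]
    rcases hz with hz | hz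
    · exact ⟨⟨by linarith [hz.1], by linarith [hz.2]⟩, ⟨by linarith [hz.1], by linarith [hz.2]⟩⟩
    · exact ⟨⟨by linarith [hz.1], by linarith [hz.2]⟩, ⟨by linarith [hz.1], by linarith [hz.2]⟩⟩
  have h4 := mvt_abs (g := fun z => f z - f (z - y)) (g' := fun z => f' z - f' (z - y)) (a := q1) (b := p1)
    (m := m * |y|)
    (by
      intro z hz
      obtain ⟨e1, e2⟩ := hsub z hz
      have h5 : HasDerivAt (fun z => f (z - y)) (f' (z - y)) z :=
        HasDerivAt.comp_sub_const z y (h1 (z - y) e2)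
      exact (h1 z e1).sub h5)
    (by
      intro z hz
      obtain ⟨e1, e2⟩ := hsub z hz
      have h5 := mvt_abs (g := f') (g' := f'') (a := z - y) (b := z) (m := m)
        (fun w hw => h2 w (Set.uIcc_subset_Icc e2 e1 hw)) (fun w hw => h3 w (Set.uIcc_subset_Icc e2 e1 hw))
      rwa [sub_sub_cancel] at h5)
  simp only [hy1, hy2] at h4
  refine h4.trans (le_of_eq ?_)
  congr 1
  ring

/-- the count for curved phases, `m` a lower bound of the second derivative -/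
theorem countC (N : ℕ) (hN : 1 ≤ N) (U m : ℝ) (hU : 0 ≤ U) (hm : 0 < m) (f f' f'' : ℝ → ℝ)
    (h1 : ∀ z ∈ Set.Icc (N : ℝ) (2 * N), HasDerivAt f (f' z) z)
    (h2 : ∀ z ∈ Set.Icc (N : ℝ) (2 * N), HasDerivAt f' (f'' z) z)
    (h3 : ∀ z ∈ Set.Icc (N : ℝ) (2 * N), m ≤ |f'' z|) :
    ∑ p ∈ Icc N (2 * N) ×ˢ Icc N (2 * N), ∑ q ∈ Icc N (2 * N) ×ˢ Icc N (2 * N),
      (if kk p = kk q then
        (if 2 * Real.pi * (f p.1 + f p.2) = 2 * Real.pi * (f q.1 + f q.2) then U
          else 2 / |2 * Real.pi * (f p.1 + f p.2) - 2 * Real.pi * (f q.1 + f q.2)|) else 0) ≤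
      (2 * N : ℝ) * (2 * U * (2 * N) + 1 / m * (2 * (1 + Real.log (2 * N : ℕ))) ^ 2) := by
  set I : Finset ℕ := Icc N (2 * N) with hI
  have hIs : I ⊆ Icc 1 (2 * N) := Finset.Icc_subset_Icc_left hN
  have hIc : (I.card : ℝ) ≤ 2 * N := by
    rw [hI, Nat.card_Icc]
    have : 2 * N + 1 - N ≤ 2 * N := by omega
    exact_mod_cast this
  set w : ℕ → ℕ → ℕ → ℝ := fun p1 q1 q2 => (if p1 = q1 then U else 0) + (if p1 = q2 then U else 0) +
    1 / m * (rr ((p1 : ℤ) - q1) * rr ((p1 : ℤ) - q2)) with hw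
  have hwn : ∀ p1 q1 q2, 0 ≤ w p1 q1 q2 := by
    intro p1 q1 q2
    have e1 := rr_nonneg ((p1 : ℤ) - q1)
    have e2 := rr_nonneg ((p1 : ℤ) - q2)
    have e3 : 0 ≤ (if p1 = q1 then U else 0) := by split_ifs <;> simp [hU]
    have e4 : 0 ≤ (if p1 = q2 then U else 0) := by split_ifs <;> simp [hU]
    simp only [hw]
    positivity
  have hmemI : ∀ n ∈ I, (n : ℝ) ∈ Set.Icc (N : ℝ) (2 * N) := by
    intro n hn
    rw [hI, mem_Icc] at hn
    exact ⟨by exact_mod_cast hn.1, by exact_mod_cast hn.2⟩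
  have hterm : ∀ p ∈ I ×ˢ I, ∀ q ∈ I ×ˢ I,
      (if kk p = kk q then
        (if 2 * Real.pi * (f p.1 + f p.2) = 2 * Real.pi * (f q.1 + f q.2) then U
          else 2 / |2 * Real.pi * (f p.1 + f p.2) - 2 * Real.pi * (f q.1 + f q.2)|) else 0) ≤
      (if p.1 + p.2 = q.1 + q.2 then w p.1 q.1 q.2 else 0) := by
    intro p hp q hq
    rw [mem_product] at hp hq
    by_cases h : p.1 + p.2 = q.1 + q.2
    · rw [if_pos (by unfold kk; exact_mod_cast h), if_pos h]
      have hR : (p.1 : ℝ) + p.2 = q.1 + q.2 := by exact_mod_cast h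
      have hc := curv h1 h2 h3 (hmemI _ hp.1) (hmemI _ hp.2) (hmemI _ hq.1) (hmemI _ hq.2) hR
      have n1 := rr_nonneg ((p.1 : ℤ) - q.1)
      have n2 := rr_nonneg ((p.1 : ℤ) - q.2)
      have n3 : 0 ≤ 1 / m * (rr ((p.1 : ℤ) - q.1) * rr ((p.1 : ℤ) - q.2)) := by positivity
      have n4 : 0 ≤ (if p.1 = q.1 then U else 0) := by split_ifs <;> simp [hU]
      have n5 : 0 ≤ (if p.1 = q.2 then U else 0) := by split_ifs <;> simp [hU]
      by_cases c1 : p.1 = q.1
      · have c3 : p.2 = q.2 := by omega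
        rw [if_pos (by rw [c1, c3])]
        simp only [hw]
        rw [if_pos c1]
        linarith
      by_cases c2 : p.1 = q.2
      · have c3 : p.2 = q.1 := by omega
        rw [if_pos (by rw [c2, c3, add_comm])]
        simp only [hw]
        rw [if_pos c2]
        linarith
      have d1 : 0 < |(p.1 : ℝ) - q.1| := abs_pos.2 (sub_ne_zero.2 (by exact_mod_cast c1))
      have d2 : 0 < |(p.1 : ℝ) - q.2| := abs_pos.2 (sub_ne_zero.2 (by exact_mod_cast c2))
      have hpos : 0 < m * |(p.1 : ℝ) - q.2| * |(p.1 : ℝ) - q.1| := by positivity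
      have hne : ¬ 2 * Real.pi * (f p.1 + f p.2) = 2 * Real.pi * (f q.1 + f q.2) := by
        intro h0
        have h5 : f p.1 + f p.2 = f q.1 + f q.2 :=
          mul_left_cancel₀ (by positivity : (2 * Real.pi : ℝ) ≠ 0) h0
        rw [h5, sub_self, abs_zero] at hc
        linarith
      rw [if_neg hne, ← mul_sub, abs_mul, abs_of_pos (by positivity : (0 : ℝ) < 2 * Real.pi)]
      simp only [hw]
      rw [if_neg c1, if_neg c2, zero_add, zero_add]
      have hpi : (2 : ℝ) ≤ 2 * Real.pi := by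
        have := Real.pi_gt_three
        linarith
      have h6 : 2 * (m * |(p.1 : ℝ) - q.2| * |(p.1 : ℝ) - q.1|) ≤
          2 * Real.pi * |f p.1 + f p.2 - (f q.1 + f q.2)| :=
        mul_le_mul hpi hc hpos.le (by positivity)
      calc 2 / (2 * Real.pi * |f p.1 + f p.2 - (f q.1 + f q.2)|)
          ≤ 2 / (2 * (m * |(p.1 : ℝ) - q.2| * |(p.1 : ℝ) - q.1|)) :=
            div_le_div_of_nonneg_left (by norm_num) (by positivity) h6
        _ = 1 / m * (rr ((p.1 : ℤ) - q.1) * rr ((p.1 : ℤ) - q.2)) := by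
            unfold rr
            push_cast
            field_simp
    · rw [if_neg (by unfold kk; exact_mod_cast h), if_neg h]
  refine (sum_le_sum fun p hp => sum_le_sum fun q hq => hterm p hp q hq).trans ?_
  rw [sum_product]
  have hrow : ∀ p1 ∈ I, ∑ p2 ∈ I, ∑ q ∈ I ×ˢ I, (if p1 + p2 = q.1 + q.2 then w p1 q.1 q.2 else 0) ≤
      2 * U * (2 * N) + 1 / m * (2 * (1 + Real.log (2 * N : ℕ))) ^ 2 := by
    intro p1 hp1
    rw [sum_comm]
    have e0 : ∑ q ∈ I ×ˢ I, ∑ p2 ∈ I, (if p1 + p2 = q.1 + q.2 then w p1 q.1 q.2 else 0) ≤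
        ∑ q ∈ I ×ˢ I, w p1 q.1 q.2 := by
      refine sum_le_sum fun q _ => ?_
      have hw0 := hwn p1 q.1 q.2
      rw [← Finset.sum_filter, Finset.sum_const, nsmul_eq_mul]
      have hc : ((I.filter (fun p2 => p1 + p2 = q.1 + q.2)).card : ℝ) ≤ 1 := by
        exact_mod_cast Finset.card_le_one.2 (by
          intro x hx y hy
          rw [mem_filter] at hx hy
          omega)
      nlinarith
    refine e0.trans ?_
    rw [sum_product]
    simp only [hw]
    simp_rw [sum_add_distrib]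
    have e1 : ∑ q1 ∈ I, ∑ _q2 ∈ I, (if p1 = q1 then U else 0) ≤ U * (2 * N) := by
      rw [sum_comm]
      simp only [sum_ite_eq, hp1, if_true, sum_const, nsmul_eq_mul]
      rw [mul_comm]
      exact mul_le_mul_of_nonneg_left hIc hU
    have e2 : ∑ _q1 ∈ I, ∑ q2 ∈ I, (if p1 = q2 then U else 0) ≤ U * (2 * N) := by
      simp only [sum_ite_eq, hp1, if_true, sum_const, nsmul_eq_mul]
      rw [mul_comm]
      exact mul_le_mul_of_nonneg_left hIc hU
    have e3 : ∑ q1 ∈ I, ∑ q2 ∈ I, 1 / m * (rr ((p1 : ℤ) - q1) * rr ((p1 : ℤ) - q2)) ≤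
        1 / m * (2 * (1 + Real.log (2 * N : ℕ))) ^ 2 := by
      have g1 : ∑ q1 ∈ I, ∑ q2 ∈ I, 1 / m * (rr ((p1 : ℤ) - q1) * rr ((p1 : ℤ) - q2)) =
          1 / m * (∑ q ∈ I, rr ((p1 : ℤ) - q)) ^ 2 := by
        rw [sq (∑ q ∈ I, rr ((p1 : ℤ) - q)), Finset.sum_mul_sum, mul_sum]
        refine sum_congr rfl fun q1 _ => ?_
        rw [mul_sum]
      rw [g1]
      apply mul_le_mul_of_nonneg_left _ (by positivity)
      apply pow_le_pow_left₀ (sum_nonneg fun q _ => rr_nonneg _)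
      exact (sum_le_sum_of_subset_of_nonneg hIs fun _ _ _ => rr_nonneg _).trans
        (sum_rr (2 * N) p1 (hIs hp1))
    linarith
  refine (sum_le_sum hrow).trans ?_
  rw [sum_const, nsmul_eq_mul]
  apply mul_le_mul_of_nonneg_right hIc
  positivity

end Pool.Agent.X111.AT
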