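import Pool.Agent.X111.AT.Sup
import Pool.Agent.H505R2.DivB

/-!
# Higher moments
-/

set_option autoImplicit false

namespace Pool.Agent.X111.AT

open Finset MeasureTheory

/-- tuples -/
def PT (N k : ℕ) : Finset (Fin k → ℕ) := Fintype.piFinset fun _ => Icc 1 N

def kT {k : ℕ} (p : Fin k → ℕ) : ℤ := ((∑ i, p i : ℕ) : ℤ)

noncomputable def lT {k : ℕ} (p : Fin k → ℕ) : ℝ := ∑ i, Real.log (p i)

def prd {k : ℕ} (p : Fin k → ℕ) : ℕ := ∏ i, p i

theorem D_pow (N k : ℕ) (a : ℕ → ℂ) (α t : ℝ) :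
    D N a α t ^ k = GG (PT N k) (fun p => ∏ i, a (p i)) kT lT α t := by
  have h1 : D N a α t ^ k = ∏ _i : Fin k, D N a α t := by simp
  rw [h1]
  unfold D
  rw [Finset.prod_univ_sum]
  unfold GG PT
  refine sum_congr rfl fun p _ => ?_
  rw [prod_mul_distrib, ← Complex.exp_sum]
  congr 2
  unfold kT lT
  rw [← Finset.sum_mul]
  congr 1
  push_cast
  rw [sum_add_distrib, ← mul_sum, ← mul_sum]

theorem mem_PT {N k : ℕ} {p : Fin k → ℕ} : p ∈ PT N k ↔ ∀ i, p i ∈ Icc 1 N := Fintype.mem_piFinset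

theorem prd_mem {N k : ℕ} {p : Fin k → ℕ} (hp : p ∈ PT N k) : prd p ∈ Icc 1 (N ^ k) := by
  rw [mem_PT] at hp
  rw [mem_Icc]
  unfold prd
  constructor
  · exact Nat.one_le_iff_ne_zero.2 (Finset.prod_ne_zero_iff.2 fun i _ => by
      have := (mem_Icc.1 (hp i)).1
      omega)
  · calc ∏ i, p i ≤ ∏ _i : Fin k, N := Finset.prod_le_prod' fun i _ => (mem_Icc.1 (hp i)).2
      _ = N ^ k := by simp

theorem lT_eq {N k : ℕ} {p : Fin k → ℕ} (hp : p ∈ PT N k) : lT p = Real.log (prd p) := by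
  rw [mem_PT] at hp
  unfold lT prd
  push_cast
  rw [Real.log_prod]
  intro i _
  have := (mem_Icc.1 (hp i)).1
  positivity

theorem card_le (N k m : ℕ) (hm : m ∈ Icc 1 (N ^ k)) :
    ((PT N k).filter (fun q => prd q = m)).card ≤ m.divisors.card ^ k := by
  have h1 : (PT N k).filter (fun q => prd q = m) ⊆ Fintype.piFinset (fun _ : Fin k => m.divisors) := by
    intro q hq
    rw [mem_filter] at hq
    rw [Fintype.mem_piFinset]
    intro i
    rw [Nat.mem_divisors]
    refine ⟨?_, by have := (mem_Icc.1 hm).1; omega⟩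
    rw [← hq.2]
    exact Finset.dvd_prod_of_mem _ (mem_univ i)
  refine (Finset.card_le_card h1).trans (le_of_eq ?_)
  rw [Fintype.card_piFinset]
  simp

theorem countT (N k : ℕ) (U : ℝ) (hU : 0 ≤ U) (c : ℝ)
    (hc : ∀ m ∈ Icc 1 (N ^ k), ((((PT N k).filter (fun q => prd q = m)).card : ℕ) : ℝ) ≤ c) :
    ∑ p ∈ PT N k, ∑ q ∈ PT N k,
      (if kT p = kT q then (if lT p = lT q then U else 2 / |lT p - lT q|) else 0) ≤
      (N : ℝ) ^ k * (c * (U + 4 * (N : ℝ) ^ k * (1 + Real.log ((N : ℝ) ^ k)))) := by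
  set M : ℕ := N ^ k with hM
  have hMc : (M : ℝ) = (N : ℝ) ^ k := by rw [hM]; push_cast; rfl
  set f : ℕ → ℕ → ℝ := fun m m' => (if m = m' then U else 0) + 2 * (M : ℝ) * rr ((m : ℤ) - m') with hf
  have hf0 : ∀ m m', 0 ≤ f m m' := by
    intro m m'
    have h1 := rr_nonneg ((m : ℤ) - m')
    have h2 : 0 ≤ (if m = m' then U else 0) := by split_ifs <;> simp [hU]
    simp only [hf]
    positivity
  have hterm : ∀ p ∈ PT N k, ∀ q ∈ PT N k,
      (if kT p = kT q then (if lT p = lT q then U else 2 / |lT p - lT q|) else 0) ≤ f (prd p) (prd q) := by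
    intro p hp q hq
    split_ifs with h1 h2
    · rw [lT_eq hp, lT_eq hq] at h2
      have hp1 := (mem_Icc.1 (prd_mem hp)).1
      have hq1 := (mem_Icc.1 (prd_mem hq)).1
      have h3 : prd p = prd q := by
        have := Real.log_injOn_pos (Set.mem_Ioi.2 (by exact_mod_cast hp1 : (0 : ℝ) < prd p))
          (Set.mem_Ioi.2 (by exact_mod_cast hq1 : (0 : ℝ) < prd q)) h2
        exact_mod_cast this
      simp only [hf]
      rw [if_pos h3]
      have := rr_nonneg ((prd p : ℤ) - prd q)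
      have : 0 ≤ 2 * (M : ℝ) * rr ((prd p : ℤ) - prd q) := by positivity
      linarith
    · rw [lT_eq hp, lT_eq hq] at h2 ⊢
      have hp1 := mem_Icc.1 (prd_mem hp)
      have hq1 := mem_Icc.1 (prd_mem hq)
      have h3 : prd p ≠ prd q := fun h => h2 (by rw [h])
      simp only [hf]
      rw [if_neg h3, zero_add]
      have a1 : (0 : ℝ) < prd p := by exact_mod_cast hp1.1
      have a2 : (0 : ℝ) < prd q := by exact_mod_cast hq1.1
      have b1 : (prd p : ℝ) ≤ M := by exact_mod_cast hp1.2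
      have b2 : (prd q : ℝ) ≤ M := by exact_mod_cast hq1.2
      have h4 := log_sub_ge a1 a2 b1 b2
      have d1 : (prd p : ℝ) - prd q ≠ 0 := sub_ne_zero.2 (by exact_mod_cast h3)
      have hM0 : (0 : ℝ) < M := a1.trans_le b1
      have h5 : 0 < |(prd p : ℝ) - prd q| / M := by
        have := abs_pos.2 d1
        positivity
      calc 2 / |Real.log (prd p) - Real.log (prd q)| ≤ 2 / (|(prd p : ℝ) - prd q| / M) :=
            div_le_div_of_nonneg_left (by norm_num) h5 h4
        _ = 2 * (M : ℝ) * rr ((prd p : ℤ) - prd q) := by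
            unfold rr
            push_cast
            have := abs_pos.2 d1
            field_simp
    · exact hf0 _ _
  have hrow : ∀ p ∈ PT N k, ∑ q ∈ PT N k, f (prd p) (prd q) ≤
      c * (U + 4 * (N : ℝ) ^ k * (1 + Real.log ((N : ℝ) ^ k))) := by
    intro p hp
    rw [← Finset.sum_fiberwise_of_maps_to (g := prd) (t := Icc 1 M) (fun q hq => prd_mem hq)]
    have h1 : ∀ m ∈ Icc 1 M, ∑ q ∈ PT N k with prd q = m, f (prd p) (prd q) ≤ c * f (prd p) m := by
      intro m hm
      have h2 : ∀ q ∈ (PT N k).filter (fun q => prd q = m), f (prd p) (prd q) = f (prd p) m := by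
        intro q hq
        rw [(mem_filter.1 hq).2]
      rw [sum_congr rfl h2, sum_const, nsmul_eq_mul]
      exact mul_le_mul_of_nonneg_right (hc m hm) (hf0 _ _)
    refine (sum_le_sum h1).trans ?_
    rw [← mul_sum]
    have hc0 : 0 ≤ c := le_trans (Nat.cast_nonneg _) (hc (prd p) (prd_mem hp))
    apply mul_le_mul_of_nonneg_left _ hc0
    simp only [hf]
    rw [sum_add_distrib, ← mul_sum]
    have h3 := sum_rr M (prd p) (prd_mem hp)
    have h4 : ∑ m ∈ Icc 1 M, (if prd p = m then U else 0) ≤ U := by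
      rw [Finset.sum_ite_eq]
      split_ifs <;> simp [hU]
    rw [hMc] at h3 ⊢
    have h5 : 2 * (N : ℝ) ^ k * ∑ m ∈ Icc 1 M, rr ((prd p : ℤ) - m) ≤
        2 * (N : ℝ) ^ k * (2 * (1 + Real.log ((N : ℝ) ^ k))) :=
      mul_le_mul_of_nonneg_left h3 (by positivity)
    linarith
  refine (sum_le_sum fun p hp => (sum_le_sum fun q hq => hterm p hp q hq).trans (hrow p hp)).trans ?_
  rw [sum_const, nsmul_eq_mul]
  apply le_of_eq
  congr 1
  unfold PT
  rw [Fintype.card_piFinset]
  simp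

end Pool.Agent.X111.AT
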