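import Mathlib

/-!
# Double mean values over an additive twist and the vertical variable
-/

set_option autoImplicit false

namespace Pool.Agent.X111.AT

open Finset MeasureTheory

/-- the sum -/
noncomputable def GG {ι : Type*} (P : Finset ι) (b : ι → ℂ) (k : ι → ℤ) (lam : ι → ℝ) (α u : ℝ) : ℂ :=
  ∑ p ∈ P, b p * Complex.exp (((2 * Real.pi * α * k p + u * lam p : ℝ) : ℂ) * Complex.I)

/-- the integral of an exponential -/
noncomputable def JJ (U x : ℝ) : ℂ := ∫ u in (0 : ℝ)..U, Complex.exp (((u * x : ℝ) : ℂ) * Complex.I)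

theorem JJ_zero (U : ℝ) (hU : 0 ≤ U) : ‖JJ U 0‖ ≤ U := by
  unfold JJ
  simp [abs_of_nonneg hU]

theorem JJ_bound (U x : ℝ) (hx : x ≠ 0) : ‖JJ U x‖ ≤ 2 / |x| := by
  unfold JJ
  have hc : ((x : ℂ) * Complex.I) ≠ 0 := mul_ne_zero (by exact_mod_cast hx) Complex.I_ne_zero
  have h1 : ∫ u in (0 : ℝ)..U, Complex.exp (((u * x : ℝ) : ℂ) * Complex.I) =
      ∫ u in (0 : ℝ)..U, Complex.exp (((x : ℂ) * Complex.I) * u) := by
    congr 1
    ext u
    congr 1
    push_cast
    ring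
  rw [h1, integral_exp_mul_complex hc, norm_div]
  have h2 : ‖(x : ℂ) * Complex.I‖ = |x| := by simp
  rw [h2]
  apply div_le_div_of_nonneg_right _ (abs_nonneg x)
  refine (norm_sub_le _ _).trans ?_
  have h3 : ∀ v : ℝ, ‖Complex.exp (((x : ℂ) * Complex.I) * v)‖ = 1 := by
    intro v
    rw [show ((x : ℂ) * Complex.I) * v = ((x * v : ℝ) : ℂ) * Complex.I by push_cast; ring]
    exact Complex.norm_exp_ofReal_mul_I _
  rw [h3, h3]
  norm_num

/-- orthogonality -/
theorem orth (k : ℤ) : ∫ α in (0 : ℝ)..1, Complex.exp (((2 * Real.pi * α * k : ℝ) : ℂ) * Complex.I) =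
    if k = 0 then 1 else 0 := by
  split_ifs with h
  · subst h
    simp
  · have hc : (2 * (Real.pi : ℂ) * Complex.I * k) ≠ 0 := by
      have : (k : ℂ) ≠ 0 := by exact_mod_cast h
      have := Complex.two_pi_I_ne_zero
      positivity
    have h1 : ∫ α in (0 : ℝ)..1, Complex.exp (((2 * Real.pi * α * k : ℝ) : ℂ) * Complex.I) =
        ∫ α in (0 : ℝ)..1, Complex.exp ((2 * (Real.pi : ℂ) * Complex.I * k) * α) := by
      congr 1
      ext u
      congr 1
      push_cast
      ring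
    rw [h1, integral_exp_mul_complex hc]
    have h2 : Complex.exp (2 * (Real.pi : ℂ) * Complex.I * k * (1 : ℝ)) = 1 := by
      rw [Complex.exp_eq_one_iff]
      exact ⟨k, by push_cast; ring⟩
    rw [h2]
    simp

theorem cont_GG {ι : Type*} (P : Finset ι) (b : ι → ℂ) (k : ι → ℤ) (lam : ι → ℝ) :
    Continuous (fun x : ℝ × ℝ => GG P b k lam x.1 x.2) := by
  unfold GG
  fun_prop

theorem sq_GG {ι : Type*} (P : Finset ι) (b : ι → ℂ) (k : ι → ℤ) (lam : ι → ℝ) (α u : ℝ) :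
    ((‖GG P b k lam α u‖ ^ 2 : ℝ) : ℂ) = ∑ p ∈ P, ∑ q ∈ P, (b p * (starRingEnd ℂ) (b q)) *
      (Complex.exp (((2 * Real.pi * α * ((k p - k q : ℤ) : ℝ) : ℝ) : ℂ) * Complex.I) *
        Complex.exp (((u * (lam p - lam q) : ℝ) : ℂ) * Complex.I)) := by
  rw [Complex.ofReal_pow, ← Complex.mul_conj', GG, map_sum, Finset.sum_mul_sum]
  refine sum_congr rfl fun p _ => sum_congr rfl fun q _ => ?_
  rw [map_mul, ← Complex.exp_conj, map_mul, Complex.conj_I, Complex.conj_ofReal, ← Complex.exp_add,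
    mul_mul_mul_comm, ← Complex.exp_add]
  congr 2
  push_cast
  ring

theorem int_u {ι : Type*} (P : Finset ι) (b : ι → ℂ) (k : ι → ℤ) (lam : ι → ℝ) (α U : ℝ) :
    ((∫ u in (0 : ℝ)..U, ‖GG P b k lam α u‖ ^ 2 : ℝ) : ℂ) = ∑ p ∈ P, ∑ q ∈ P,
      ((b p * (starRingEnd ℂ) (b q)) * JJ U (lam p - lam q)) *
      Complex.exp (((2 * Real.pi * α * ((k p - k q : ℤ) : ℝ) : ℝ) : ℂ) * Complex.I) := by
  rw [← intervalIntegral.integral_ofReal]
  simp_rw [sq_GG]
  rw [intervalIntegral.integral_finset_sum]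
  · refine sum_congr rfl fun p _ => ?_
    rw [intervalIntegral.integral_finset_sum]
    · refine sum_congr rfl fun q _ => ?_
      rw [intervalIntegral.integral_const_mul, intervalIntegral.integral_const_mul]
      unfold JJ
      ring
    · intro q _
      apply Continuous.intervalIntegrable
      fun_prop
  · intro p _
    apply Continuous.intervalIntegrable
    fun_prop

theorem int_au {ι : Type*} (P : Finset ι) (b : ι → ℂ) (k : ι → ℤ) (lam : ι → ℝ) (U : ℝ) :
    ((∫ α in (0 : ℝ)..1, ∫ u in (0 : ℝ)..U, ‖GG P b k lam α u‖ ^ 2 : ℝ) : ℂ) = ∑ p ∈ P, ∑ q ∈ P,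
      ((b p * (starRingEnd ℂ) (b q)) * JJ U (lam p - lam q)) * (if k p - k q = 0 then 1 else 0) := by
  rw [← intervalIntegral.integral_ofReal]
  simp_rw [int_u]
  rw [intervalIntegral.integral_finset_sum]
  · refine sum_congr rfl fun p _ => ?_
    rw [intervalIntegral.integral_finset_sum]
    · refine sum_congr rfl fun q _ => ?_
      rw [intervalIntegral.integral_const_mul, orth]
    · intro q _
      apply Continuous.intervalIntegrable
      fun_prop
  · intro p _
    apply Continuous.intervalIntegrable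
    fun_prop

/-- the double mean value -/
theorem dmv {ι : Type*} (P : Finset ι) (b : ι → ℂ) (k : ι → ℤ) (lam : ι → ℝ) (U B : ℝ) (hU : 0 ≤ U)
    (hB : ∀ p ∈ P, ‖b p‖ ≤ B) :
    ∫ α in (0 : ℝ)..1, ∫ u in (0 : ℝ)..U, ‖GG P b k lam α u‖ ^ 2 ≤
      B ^ 2 * ∑ p ∈ P, ∑ q ∈ P, if k p = k q then (if lam p = lam q then U else 2 / |lam p - lam q|) else 0 := by
  set X := ∫ α in (0 : ℝ)..1, ∫ u in (0 : ℝ)..U, ‖GG P b k lam α u‖ ^ 2 with hX
  have h1 : X ≤ ‖(X : ℂ)‖ := by
    rw [Complex.norm_real]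
    exact le_abs_self X
  refine h1.trans ?_
  rw [hX, int_au, mul_sum]
  refine (norm_sum_le _ _).trans (sum_le_sum fun p hp => ?_)
  rw [mul_sum]
  refine (norm_sum_le _ _).trans (sum_le_sum fun q hq => ?_)
  have hB0 : 0 ≤ B := (norm_nonneg _).trans (hB p hp)
  by_cases hk : k p = k q
  · rw [if_pos (by rw [hk, sub_self]), if_pos hk, mul_one, norm_mul, norm_mul, RCLike.norm_conj]
    have h2 : ‖b p‖ * ‖b q‖ ≤ B ^ 2 := by
      rw [sq]
      exact mul_le_mul (hB p hp) (hB q hq) (norm_nonneg _) hB0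
    apply mul_le_mul h2 _ (norm_nonneg _) (by positivity)
    split_ifs with h3
    · rw [h3, sub_self]
      exact JJ_zero U hU
    · exact JJ_bound U _ (sub_ne_zero.2 h3)
  · rw [if_neg (sub_ne_zero.2 hk), if_neg hk]
    simp

end Pool.Agent.X111.AT
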