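import Pool.Agent.X111.AT.MV
import Pool.Agent.X111.AT.Cnt

/-!
# The fourth moment of Dirichlet polynomials with almost all additive twists
-/

set_option autoImplicit false

namespace Pool.Agent.X111.AT

open Finset MeasureTheory

/-- `∑_{n ≤ N} a_n e(α n) n^{it}` -/
noncomputable def D (N : ℕ) (a : ℕ → ℂ) (α t : ℝ) : ℂ :=
  ∑ n ∈ Icc 1 N, a n * Complex.exp (((2 * Real.pi * α * n + t * Real.log n : ℝ) : ℂ) * Complex.I)

def PP (N : ℕ) : Finset (ℕ × ℕ) := Icc 1 N ×ˢ Icc 1 N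

def kk (p : ℕ × ℕ) : ℤ := ((p.1 + p.2 : ℕ) : ℤ)

noncomputable def ll (p : ℕ × ℕ) : ℝ := Real.log p.1 + Real.log p.2

theorem D_sq (N : ℕ) (a : ℕ → ℂ) (α t : ℝ) :
    D N a α t ^ 2 = GG (PP N) (fun p => a p.1 * a p.2) kk ll α t := by
  rw [sq, D, Finset.sum_mul_sum, GG, PP, sum_product]
  refine sum_congr rfl fun m _ => sum_congr rfl fun n _ => ?_
  rw [mul_mul_mul_comm, ← Complex.exp_add]
  congr 2
  unfold kk ll
  push_cast
  ring

theorem hasDeriv_GG {ι : Type*} (P : Finset ι) (b : ι → ℂ) (k : ι → ℤ) (lam : ι → ℝ) (α u : ℝ) :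
    HasDerivAt (fun u => GG P b k lam α u) (GG P (fun p => b p * ((lam p : ℂ) * Complex.I)) k lam α u) u := by
  unfold GG
  apply HasDerivAt.fun_sum
  intro p _
  have h1 : HasDerivAt (fun u : ℝ => 2 * Real.pi * α * k p + u * lam p) (lam p) u := by
    simpa using ((hasDerivAt_id u).mul_const (lam p)).const_add (2 * Real.pi * α * k p)
  have h2 := ((h1.ofReal_comp.mul_const Complex.I).cexp).const_mul (b p)
  exact h2.congr_deriv (by ring)

theorem cont_u {ι : Type*} (P : Finset ι) (b : ι → ℂ) (k : ι → ℤ) (lam : ι → ℝ) (α : ℝ) :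
    Continuous (fun u => GG P b k lam α u) := by
  unfold GG
  fun_prop

/-- Gallagher's inequality on an interval of length one (Pool.Agent.W462.EM.gall) -/
theorem gall {h h' : ℝ → ℂ} (hd : ∀ ξ, HasDerivAt h (h' ξ) ξ) (hc : Continuous h) (hc' : Continuous h')
    (y ξ : ℝ) (h1 : y ≤ ξ) (h2 : ξ ≤ y + 1) :
    ‖h ξ‖ ^ 2 ≤ ∫ u in y..(y + 1), (2 * ‖h u‖ ^ 2 + ‖h' u‖ ^ 2) := by
  have hg : ∀ u, HasDerivAt (fun u => ‖h u‖ ^ 2) (2 * (inner ℝ (h u) (h' u))) u := fun u =>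
    (hd u).norm_sq
  have hcd : Continuous fun u => 2 * (inner ℝ (h u) (h' u)) := by fun_prop
  have hle : ∀ u, |2 * (inner ℝ (h u) (h' u))| ≤ ‖h u‖ ^ 2 + ‖h' u‖ ^ 2 := by
    intro u
    rw [abs_mul, abs_two]
    have := abs_real_inner_le_norm (h u) (h' u)
    nlinarith [sq_nonneg (‖h u‖ - ‖h' u‖)]
  have hca : Continuous fun u => ‖h u‖ ^ 2 + ‖h' u‖ ^ 2 := by fun_prop
  set I1 := ∫ u in y..(y + 1), (‖h u‖ ^ 2 + ‖h' u‖ ^ 2) with hI1
  have hkey : ∀ u ∈ Set.Icc y (y + 1), ‖h ξ‖ ^ 2 ≤ ‖h u‖ ^ 2 + I1 := by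
    intro u hu
    have e := intervalIntegral.integral_eq_sub_of_hasDerivAt (a := u) (b := ξ)
      (fun v _ => hg v) (hcd.intervalIntegrable _ _)
    have h3 : ‖∫ v in u..ξ, 2 * (inner ℝ (h v) (h' v))‖ ≤ I1 := by
      rw [hI1]
      rcases le_total u ξ with huv | huv
      · refine (intervalIntegral.norm_integral_le_integral_norm huv).trans ?_
        refine (intervalIntegral.integral_mono_on huv (by
          apply Continuous.intervalIntegrable; fun_prop) (hca.intervalIntegrable _ _)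
          (fun v _ => hle v)).trans ?_
        exact intervalIntegral.integral_mono_interval hu.1 huv h2
          (Filter.Eventually.of_forall fun v => by simp only [Pi.zero_apply]; positivity)
          (hca.intervalIntegrable _ _)
      · rw [intervalIntegral.integral_symm, norm_neg]
        refine (intervalIntegral.norm_integral_le_integral_norm huv).trans ?_
        refine (intervalIntegral.integral_mono_on huv (by
          apply Continuous.intervalIntegrable; fun_prop) (hca.intervalIntegrable _ _)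
          (fun v _ => hle v)).trans ?_
        exact intervalIntegral.integral_mono_interval h1 huv hu.2
          (Filter.Eventually.of_forall fun v => by simp only [Pi.zero_apply]; positivity)
          (hca.intervalIntegrable _ _)
    rw [e] at h3
    have h4 := (abs_le.1 h3).2
    linarith
  have h5 : ∫ u in y..(y + 1), ‖h ξ‖ ^ 2 ≤ ∫ u in y..(y + 1), (‖h u‖ ^ 2 + I1) := by
    refine intervalIntegral.integral_mono_on (by linarith) (by simp)
      (by apply Continuous.intervalIntegrable; fun_prop) hkey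
  rw [intervalIntegral.integral_const, intervalIntegral.integral_add
    (by apply Continuous.intervalIntegrable; fun_prop) (by simp),
    intervalIntegral.integral_const] at h5
  simp only [add_sub_cancel_left, one_smul] at h5
  refine h5.trans (le_of_eq ?_)
  rw [hI1, ← intervalIntegral.integral_add (by apply Continuous.intervalIntegrable; fun_prop)
    (by apply Continuous.intervalIntegrable; fun_prop)]
  congr 1
  ext u
  ring

/-- well spaced points -/
theorem spaced {h h' : ℝ → ℂ} (hd : ∀ ξ, HasDerivAt h (h' ξ) ξ) (hc : Continuous h) (hc' : Continuous h')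
    (T : ℝ) (S : Finset ℝ) (hS : ∀ t ∈ S, 0 ≤ t ∧ t ≤ T)
    (hsep : ∀ t ∈ S, ∀ u ∈ S, t ≠ u → 1 ≤ |t - u|) :
    ∑ t ∈ S, ‖h t‖ ^ 2 ≤ ∫ u in (0 : ℝ)..((⌊T⌋₊ + 1 : ℕ) : ℝ), (2 * ‖h u‖ ^ 2 + ‖h' u‖ ^ 2) := by
  have hg : Continuous fun u => 2 * ‖h u‖ ^ 2 + ‖h' u‖ ^ 2 := by fun_prop
  have hinj : Set.InjOn (fun t : ℝ => ⌊t⌋₊) S := by
    intro t ht u hu htu
    by_contra hne
    have h1 := hsep t ht u hu hne
    have a1 := Nat.floor_le (hS t ht).1
    have a2 := Nat.lt_floor_add_one t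
    have b1 := Nat.floor_le (hS u hu).1
    have b2 := Nat.lt_floor_add_one u
    simp only at htu
    rw [htu] at a1 a2
    have : |t - u| < 1 := by rw [abs_lt]; constructor <;> linarith
    linarith
  have h1 : ∑ t ∈ S, ‖h t‖ ^ 2 ≤ ∑ t ∈ S, ∫ u in ((⌊t⌋₊ : ℕ) : ℝ)..((⌊t⌋₊ + 1 : ℕ) : ℝ),
      (2 * ‖h u‖ ^ 2 + ‖h' u‖ ^ 2) := by
    refine sum_le_sum fun t ht => ?_
    have := gall hd hc hc' (⌊t⌋₊ : ℝ) t (Nat.floor_le (hS t ht).1) (Nat.lt_floor_add_one t).le
    push_cast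
    exact this
  have h2 : ∑ t ∈ S, (∫ u in ((⌊t⌋₊ : ℕ) : ℝ)..((⌊t⌋₊ + 1 : ℕ) : ℝ), (2 * ‖h u‖ ^ 2 + ‖h' u‖ ^ 2)) =
      ∑ k ∈ S.image (fun t : ℝ => ⌊t⌋₊), ∫ u in (k : ℝ)..((k + 1 : ℕ) : ℝ),
        (2 * ‖h u‖ ^ 2 + ‖h' u‖ ^ 2) := by
    rw [Finset.sum_image hinj]
  have h3 : ∑ k ∈ S.image (fun t : ℝ => ⌊t⌋₊), (∫ u in (k : ℝ)..((k + 1 : ℕ) : ℝ),
        (2 * ‖h u‖ ^ 2 + ‖h' u‖ ^ 2)) ≤
      ∑ k ∈ range (⌊T⌋₊ + 1), ∫ u in (k : ℝ)..((k + 1 : ℕ) : ℝ), (2 * ‖h u‖ ^ 2 + ‖h' u‖ ^ 2) := by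
    apply sum_le_sum_of_subset_of_nonneg
    · intro k hk
      rw [mem_image] at hk
      obtain ⟨t, ht, rfl⟩ := hk
      rw [mem_range]
      exact Nat.lt_succ_of_le (Nat.floor_le_floor (hS t ht).2)
    · intro k _ _
      apply intervalIntegral.integral_nonneg
      · push_cast; linarith
      · intro u _
        positivity
  rw [h2] at h1
  refine (h1.trans h3).trans (le_of_eq ?_)
  have h4 := intervalIntegral.sum_integral_adjacent_intervals (f := fun u => 2 * ‖h u‖ ^ 2 + ‖h' u‖ ^ 2)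
    (μ := volume) (a := fun k : ℕ => (k : ℝ)) (n := ⌊T⌋₊ + 1)
    (fun k _ => hg.intervalIntegrable _ _)
  simpa using h4

theorem cont_A {ι : Type*} (P : Finset ι) (b : ι → ℂ) (k : ι → ℤ) (lam : ι → ℝ) (U : ℝ) :
    Continuous (fun α => ∫ u in (0 : ℝ)..U, ‖GG P b k lam α u‖ ^ 2) := by
  have h : (fun α => ∫ u in (0 : ℝ)..U, ‖GG P b k lam α u‖ ^ 2) = fun α => (∑ p ∈ P, ∑ q ∈ P,
      ((b p * (starRingEnd ℂ) (b q)) * JJ U (lam p - lam q)) *
      Complex.exp (((2 * Real.pi * α * ((k p - k q : ℤ) : ℝ) : ℝ) : ℂ) * Complex.I)).re := by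
    ext α
    rw [← int_u, Complex.ofReal_re]
  rw [h]
  exact Complex.continuous_re.comp (by fun_prop)

/-- the fourth moment for almost all additive twists -/
theorem main4 (N : ℕ) (hN : 1 ≤ N) (T : ℝ) (hT : 1 ≤ T) (a : ℕ → ℂ) (ha : ∀ n, ‖a n‖ ≤ 1)
    (δ : ℝ) (hδ : 0 < δ) : ∃ E : Set ℝ, MeasurableSet E ∧ volume E ≤ ENNReal.ofReal δ ∧
      ∀ α ∈ Set.Icc (0 : ℝ) 1, α ∉ E → ∀ S : Finset ℝ, (∀ t ∈ S, 0 ≤ t ∧ t ≤ T) →
        (∀ t ∈ S, ∀ u ∈ S, t ≠ u → 1 ≤ |t - u|) →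
        ∑ t ∈ S, ‖D N a α t‖ ^ 4 ≤ 32 / δ * (1 + Real.log N) ^ 4 * ((N : ℝ) ^ 2 * T + (N : ℝ) ^ 3) := by
  have hN1 : (1 : ℝ) ≤ N := by exact_mod_cast hN
  have hlog : 0 ≤ Real.log N := Real.log_nonneg hN1
  set L := 1 + Real.log N with hL
  set U : ℝ := ((⌊T⌋₊ + 1 : ℕ) : ℝ) with hU
  have hU0 : 0 ≤ U := Nat.cast_nonneg _
  have hU2 : U ≤ 2 * T := by
    rw [hU]
    push_cast
    have := Nat.floor_le (by linarith : 0 ≤ T)
    linarith
  set b : ℕ × ℕ → ℂ := fun p => a p.1 * a p.2 with hb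
  set b' : ℕ × ℕ → ℂ := fun p => b p * ((ll p : ℂ) * Complex.I) with hb'
  set A : ℝ → ℝ := fun α => ∫ u in (0 : ℝ)..U, ‖GG (PP N) b kk ll α u‖ ^ 2 with hA
  set A' : ℝ → ℝ := fun α => ∫ u in (0 : ℝ)..U, ‖GG (PP N) b' kk ll α u‖ ^ 2 with hA'
  set C0 : ℝ := 2 * (N : ℝ) ^ 2 * U + 8 * (N : ℝ) ^ 3 * L ^ 2 with hC0
  have hcA : Continuous A := cont_A _ _ _ _ _
  have hcA' : Continuous A' := cont_A _ _ _ _ _
  have hAn : ∀ α, 0 ≤ A α := fun α => intervalIntegral.integral_nonneg hU0 fun u _ => by positivity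
  have hAn' : ∀ α, 0 ≤ A' α := fun α => intervalIntegral.integral_nonneg hU0 fun u _ => by positivity
  have hcount := count N U hU0
  have hb1 : ∀ p ∈ PP N, ‖b p‖ ≤ 1 := by
    intro p _
    rw [hb, norm_mul]
    exact mul_le_one₀ (ha _) (norm_nonneg _) (ha _)
  have hlb : ∀ p ∈ PP N, |ll p| ≤ 2 * Real.log N := by
    intro p hp
    rw [PP, mem_product, mem_Icc, mem_Icc] at hp
    have h1 : (1 : ℝ) ≤ p.1 := by exact_mod_cast hp.1.1
    have h2 : (1 : ℝ) ≤ p.2 := by exact_mod_cast hp.2.1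
    have h3 : (p.1 : ℝ) ≤ N := by exact_mod_cast hp.1.2
    have h4 : (p.2 : ℝ) ≤ N := by exact_mod_cast hp.2.2
    have h5 := Real.log_nonneg h1
    have h6 := Real.log_nonneg h2
    have h7 := Real.log_le_log (by linarith) h3
    have h8 := Real.log_le_log (by linarith) h4
    unfold ll
    rw [abs_of_nonneg (by linarith)]
    linarith
  have hb2 : ∀ p ∈ PP N, ‖b' p‖ ≤ 2 * Real.log N := by
    intro p hp
    have e1 : ‖b' p‖ = ‖b p‖ * |ll p| := by
      have e2 : ‖(ll p : ℂ) * Complex.I‖ = |ll p| := by simp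
      rw [← e2, ← norm_mul]
    rw [e1]
    calc ‖b p‖ * |ll p| ≤ 1 * (2 * Real.log N) :=
          mul_le_mul (hb1 p hp) (hlb p hp) (abs_nonneg _) (by norm_num)
      _ = _ := one_mul _
  have i1 : ∫ α in (0 : ℝ)..1, A α ≤ C0 := by
    have := dmv (PP N) b kk ll U 1 hU0 hb1
    rw [one_pow, one_mul] at this
    exact this.trans hcount
  have i2 : ∫ α in (0 : ℝ)..1, A' α ≤ (2 * Real.log N) ^ 2 * C0 := by
    have := dmv (PP N) b' kk ll U (2 * Real.log N) hU0 hb2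
    exact this.trans (mul_le_mul_of_nonneg_left hcount (by positivity))
  set Φ : ℝ → ℝ := fun α => 2 * A α + A' α with hΦ
  have hcΦ : Continuous Φ := by fun_prop
  have hΦn : ∀ α, 0 ≤ Φ α := fun α => by
    have := hAn α
    have := hAn' α
    simp only [hΦ]
    linarith
  have i3 : ∫ α in (0 : ℝ)..1, Φ α ≤ 32 * L ^ 4 * ((N : ℝ) ^ 2 * T + (N : ℝ) ^ 3) := by
    rw [hΦ, intervalIntegral.integral_add ((hcA.const_mul 2).intervalIntegrable _ _)
      (hcA'.intervalIntegrable _ _), intervalIntegral.integral_const_mul]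
    have hC0n : 0 ≤ C0 := by positivity
    have e1 : 2 * (∫ α in (0 : ℝ)..1, A α) + (∫ α in (0 : ℝ)..1, A' α) ≤ 4 * L ^ 2 * C0 := by
      have : 2 * C0 + (2 * Real.log N) ^ 2 * C0 ≤ 4 * L ^ 2 * C0 := by
        rw [← add_mul]
        apply mul_le_mul_of_nonneg_right _ hC0n
        rw [hL]
        nlinarith
      linarith
    refine e1.trans ?_
    have hL1 : 1 ≤ L := by rw [hL]; linarith
    have hL2 : 1 ≤ L ^ 2 := one_le_pow₀ hL1
    have e2 : C0 ≤ 8 * L ^ 2 * ((N : ℝ) ^ 2 * T + (N : ℝ) ^ 3) := by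
      rw [hC0]
      have e3 : 2 * (N : ℝ) ^ 2 * U ≤ 8 * L ^ 2 * ((N : ℝ) ^ 2 * T) := by
        calc 2 * (N : ℝ) ^ 2 * U ≤ 2 * (N : ℝ) ^ 2 * (2 * T) :=
              mul_le_mul_of_nonneg_left hU2 (by positivity)
          _ = 1 * (4 * ((N : ℝ) ^ 2 * T)) := by ring
          _ ≤ (2 * L ^ 2) * (4 * ((N : ℝ) ^ 2 * T)) :=
              mul_le_mul_of_nonneg_right (by linarith) (by positivity)
          _ = _ := by ring
      nlinarith
    calc 4 * L ^ 2 * C0 ≤ 4 * L ^ 2 * (8 * L ^ 2 * ((N : ℝ) ^ 2 * T + (N : ℝ) ^ 3)) :=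
          mul_le_mul_of_nonneg_left e2 (by positivity)
      _ = _ := by ring
  set M : ℝ := 32 * L ^ 4 * ((N : ℝ) ^ 2 * T + (N : ℝ) ^ 3) with hM
  have hM0 : 0 < M := by
    have : 0 < L := by rw [hL]; linarith
    positivity
  refine ⟨({x | M / δ ≤ Φ x} ∩ Set.Ioc 0 1) ∪ {0}, ?_, ?_, ?_⟩
  · exact ((measurableSet_le measurable_const hcΦ.measurable).inter measurableSet_Ioc).union
      (measurableSet_singleton 0)
  · refine (measure_union_le _ _).trans ?_
    rw [Real.volume_singleton, add_zero]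
    have hint : Integrable Φ (volume.restrict (Set.Ioc (0 : ℝ) 1)) :=
      (hcΦ.continuousOn.integrableOn_compact isCompact_Icc).mono_set Set.Ioc_subset_Icc_self
    have h1 := mul_meas_ge_le_integral_of_nonneg (μ := volume.restrict (Set.Ioc (0 : ℝ) 1))
      (Filter.Eventually.of_forall hΦn) hint (M / δ)
    rw [← intervalIntegral.integral_of_le zero_le_one] at h1
    have h2 : (volume.restrict (Set.Ioc (0 : ℝ) 1)).real {x | M / δ ≤ Φ x} ≤ δ := by
      have h3 := h1.trans i3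
      rw [div_mul_eq_mul_div, div_le_iff₀ hδ] at h3
      nlinarith
    rw [measureReal_def, Measure.restrict_apply (measurableSet_le measurable_const hcΦ.measurable)] at h2
    rw [← ENNReal.ofReal_toReal (a := volume ({x | M / δ ≤ Φ x} ∩ Set.Ioc 0 1))
      (ne_top_of_le_ne_top (by simp) (measure_mono Set.inter_subset_right))]
    exact ENNReal.ofReal_le_ofReal h2
  · intro α hα hαE S hS hsep
    have hα1 : Φ α < M / δ := by
      by_contra hc
      push Not at hc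
      apply hαE
      rcases eq_or_lt_of_le hα.1 with h0 | h0
      · exact Or.inr h0.symm
      · exact Or.inl ⟨hc, h0, hα.2⟩
    have h1 := spaced (h := fun u => GG (PP N) b kk ll α u) (h' := fun u => GG (PP N) b' kk ll α u)
      (fun ξ => hasDeriv_GG _ _ _ _ _ _) (cont_u _ _ _ _ _) (cont_u _ _ _ _ _) T S hS hsep
    have h2 : ∫ u in (0 : ℝ)..U, (2 * ‖GG (PP N) b kk ll α u‖ ^ 2 + ‖GG (PP N) b' kk ll α u‖ ^ 2) = Φ α := by
      have c1 := cont_u (PP N) b kk ll α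
      have c2 := cont_u (PP N) b' kk ll α
      rw [intervalIntegral.integral_add (by apply Continuous.intervalIntegrable; fun_prop)
        (by apply Continuous.intervalIntegrable; fun_prop), intervalIntegral.integral_const_mul]
    have h3 : ∀ t ∈ S, ‖D N a α t‖ ^ 4 = ‖GG (PP N) b kk ll α t‖ ^ 2 := by
      intro t _
      rw [hb, ← D_sq, norm_pow]
      ring
    rw [sum_congr rfl h3]
    refine h1.trans ?_
    rw [h2]
    refine hα1.le.trans (le_of_eq ?_)
    rw [hM]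
    ring

end Pool.Agent.X111.AT
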