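import Pool.Agent.X111.AT.GenK

/-!
# The sup norm for almost all `t ≤ T`, `T ≥ N ^ k`
-/

set_option autoImplicit false

namespace Pool.Agent.X111.AT

open Finset MeasureTheory

theorem markovZ {ι : Type*} (P : Finset ι) (b : ι → ℂ) (k : ι → ℤ) (lam : ι → ℝ) (K : Finset ℤ)
    (hK : ∀ p ∈ P, k p ∈ K) (T : ℝ) (hT : 0 < T) (B : ℝ) (hB : 0 < B)
    (hint : ∫ u in (0 : ℝ)..T, ∫ α in (0 : ℝ)..1, ‖GG P b k lam α u‖ ^ 2 ≤ B * T)
    (δ : ℝ) (hδ : 0 < δ) : ∃ E : Set ℝ, MeasurableSet E ∧ volume E ≤ ENNReal.ofReal (δ * T) ∧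
      ∀ t ∈ Set.Icc (0 : ℝ) T, t ∉ E →
        ∫ α in (0 : ℝ)..1, ‖GG P b k lam α t‖ ^ 2 ≤ B / δ ∧
        ∀ α : ℝ, ‖GG P b k lam α t‖ ^ 2 ≤ K.card * (B / δ) := by
  set Z : ℝ → ℝ := fun u => ∫ α in (0 : ℝ)..1, ‖GG P b k lam α u‖ ^ 2 with hZ
  have hcZ : Continuous Z := cont_Z _ _ _ _
  have hZn : ∀ u, 0 ≤ Z u := fun u => intervalIntegral.integral_nonneg zero_le_one fun _ _ => by positivity
  set M : ℝ := B / δ with hM
  have hM0 : 0 < M := by positivity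
  refine ⟨({x | M ≤ Z x} ∩ Set.Ioc 0 T) ∪ {0}, ?_, ?_, ?_⟩
  · exact ((measurableSet_le measurable_const hcZ.measurable).inter measurableSet_Ioc).union
      (measurableSet_singleton 0)
  · refine (measure_union_le _ _).trans ?_
    rw [Real.volume_singleton, add_zero]
    have hi : Integrable Z (volume.restrict (Set.Ioc (0 : ℝ) T)) :=
      (hcZ.continuousOn.integrableOn_compact isCompact_Icc).mono_set Set.Ioc_subset_Icc_self
    have h1 := mul_meas_ge_le_integral_of_nonneg (μ := volume.restrict (Set.Ioc (0 : ℝ) T))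
      (Filter.Eventually.of_forall hZn) hi M
    rw [← intervalIntegral.integral_of_le hT.le] at h1
    have h2 : (volume.restrict (Set.Ioc (0 : ℝ) T)).real {x | M ≤ Z x} ≤ δ * T := by
      have h3 := h1.trans hint
      have h4 : B * T = M * (δ * T) := by
        rw [hM]
        field_simp
      rw [h4] at h3
      exact le_of_mul_le_mul_left h3 hM0
    rw [measureReal_def, Measure.restrict_apply (measurableSet_le measurable_const hcZ.measurable)] at h2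
    rw [← ENNReal.ofReal_toReal (a := volume ({x | M ≤ Z x} ∩ Set.Ioc 0 T))
      (ne_top_of_le_ne_top (by simp) (measure_mono Set.inter_subset_right))]
    exact ENNReal.ofReal_le_ofReal h2
  · intro t ht htE
    have hZt : Z t < M := by
      by_contra hc
      push Not at hc
      apply htE
      rcases eq_or_lt_of_le ht.1 with h0 | h0
      · exact Or.inr h0.symm
      · exact Or.inl ⟨hc, h0, ht.2⟩
    refine ⟨hZt.le, fun α => ?_⟩
    refine (sup_le P b k lam α t K hK).trans ?_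
    exact mul_le_mul_of_nonneg_left hZt.le (Nat.cast_nonneg _)

theorem mainK (k : ℕ) (hk : 1 ≤ k) (ε : ℝ) (hε : 0 < ε) : ∃ C : ℝ, 0 < C ∧
    ∀ N : ℕ, 1 ≤ N → ∀ T : ℝ, (N : ℝ) ^ k ≤ T → ∀ a : ℕ → ℂ, (∀ n, ‖a n‖ ≤ 1) → ∀ δ : ℝ, 0 < δ →
      ∃ E : Set ℝ, MeasurableSet E ∧ volume E ≤ ENNReal.ofReal (δ * T) ∧
      ∀ t ∈ Set.Icc (0 : ℝ) T, t ∉ E →
        ∫ α in (0 : ℝ)..1, ‖D N a α t‖ ^ (2 * k) ≤ C / δ * (N : ℝ) ^ ((k : ℝ) + ε) ∧
        ∀ α : ℝ, ‖D N a α t‖ ^ (2 * k) ≤ C / δ * (N : ℝ) ^ ((k : ℝ) + 1 + ε) := by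
  have hk0 : (0 : ℝ) < k := by exact_mod_cast hk
  have hk1 : (1 : ℝ) ≤ k := by exact_mod_cast hk
  obtain ⟨D0, hD1, hD⟩ := Pool.Agent.H505R2.div_bound (δ := ε / (2 * (k : ℝ) ^ 2)) (by positivity)
  set η : ℝ := ε / (2 * (k : ℝ) ^ 2) with hη
  have hη0 : 0 < η := by positivity
  set C0 : ℝ := D0 ^ k * (5 + 8 * k / ε) with hC0
  have hC0p : 0 < C0 := by positivity
  refine ⟨k * C0, by positivity, ?_⟩
  intro N hN T hT a ha δ hδ
  have hN1 : (1 : ℝ) ≤ N := by exact_mod_cast hN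
  have hN0 : (0 : ℝ) < N := by linarith
  have hNk : (1 : ℝ) ≤ (N : ℝ) ^ k := one_le_pow₀ hN1
  have hT0 : 0 < T := by linarith
  set B : ℝ := C0 * (N : ℝ) ^ ((k : ℝ) + ε) with hB
  have hB0 : 0 < B := by positivity
  set c : ℝ := D0 ^ k * (N : ℝ) ^ (ε / 2) with hc
  have hc0 : 0 ≤ c := by positivity
  have hcard : ∀ m ∈ Icc 1 (N ^ k), ((((PT N k).filter (fun q => prd q = m)).card : ℕ) : ℝ) ≤ c := by
    intro m hm
    have h1 := card_le N k m hm
    rw [mem_Icc] at hm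
    have h2 := hD m (by omega)
    have h3 : (m : ℝ) ^ η ≤ ((N : ℝ) ^ k) ^ η := by
      apply Real.rpow_le_rpow (Nat.cast_nonneg _) _ hη0.le
      exact_mod_cast hm.2
    have h4 : (m.divisors.card : ℝ) ≤ D0 * ((N : ℝ) ^ k) ^ η :=
      h2.trans (mul_le_mul_of_nonneg_left h3 (by linarith))
    calc ((((PT N k).filter (fun q => prd q = m)).card : ℕ) : ℝ) ≤ (m.divisors.card : ℝ) ^ k := by
          exact_mod_cast h1
      _ ≤ (D0 * ((N : ℝ) ^ k) ^ η) ^ k := pow_le_pow_left₀ (Nat.cast_nonneg _) h4 k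
      _ = c := by
          rw [mul_pow, hc]
          congr 1
          rw [← Real.rpow_natCast (N : ℝ) k, ← Real.rpow_mul hN0.le, ← Real.rpow_natCast (_ ^ _) k,
            ← Real.rpow_mul hN0.le]
          congr 1
          rw [hη]
          field_simp
  have hcount := countT N k T hT0.le c hcard
  have hlog : Real.log ((N : ℝ) ^ k) ≤ k * ((N : ℝ) ^ (ε / 2) / (ε / 2)) := by
    rw [Real.log_pow]
    exact mul_le_mul_of_nonneg_left (Real.log_le_rpow_div hN0.le (by positivity)) hk0.le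
  have hNe : (1 : ℝ) ≤ (N : ℝ) ^ (ε / 2) := Real.one_le_rpow hN1 (by positivity)
  have hb1 : ∀ p ∈ PT N k, ‖∏ i, a (p i)‖ ≤ 1 := by
    intro p _
    rw [norm_prod]
    exact Finset.prod_le_one (fun i _ => norm_nonneg _) fun i _ => ha _
  have hint : ∫ u in (0 : ℝ)..T, ∫ α in (0 : ℝ)..1,
      ‖GG (PT N k) (fun p => ∏ i, a (p i)) kT lT α u‖ ^ 2 ≤ B * T := by
    have h1 := dmv_ua (PT N k) (fun p => ∏ i, a (p i)) kT lT T 1 hT0.le hb1
    rw [one_pow, one_mul] at h1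
    refine (h1.trans hcount).trans ?_
    have h2 : T + 4 * (N : ℝ) ^ k * (1 + Real.log ((N : ℝ) ^ k)) ≤
        T * ((5 + 8 * k / ε) * (N : ℝ) ^ (ε / 2)) := by
      have hl0 : 0 ≤ Real.log ((N : ℝ) ^ k) := Real.log_nonneg hNk
      calc T + 4 * (N : ℝ) ^ k * (1 + Real.log ((N : ℝ) ^ k))
          ≤ T + 4 * T * (1 + Real.log ((N : ℝ) ^ k)) := by
            have := mul_le_mul_of_nonneg_right (mul_le_mul_of_nonneg_left hT (by norm_num : (0 : ℝ) ≤ 4))
              (by linarith : 0 ≤ 1 + Real.log ((N : ℝ) ^ k))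
            linarith
        _ = T * (5 + 4 * Real.log ((N : ℝ) ^ k)) := by ring
        _ ≤ T * ((5 + 8 * k / ε) * (N : ℝ) ^ (ε / 2)) := by
            apply mul_le_mul_of_nonneg_left _ hT0.le
            have h3 : 4 * (k * ((N : ℝ) ^ (ε / 2) / (ε / 2))) = 8 * k / ε * (N : ℝ) ^ (ε / 2) := by
              field_simp
              ring
            nlinarith
    have h4 : (N : ℝ) ^ ((k : ℝ) + ε) = (N : ℝ) ^ k * ((N : ℝ) ^ (ε / 2) * (N : ℝ) ^ (ε / 2)) := by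
      rw [← Real.rpow_add hN0, ← Real.rpow_natCast (N : ℝ) k, ← Real.rpow_add hN0]
      congr 1
      ring
    calc (N : ℝ) ^ k * (c * (T + 4 * (N : ℝ) ^ k * (1 + Real.log ((N : ℝ) ^ k))))
        ≤ (N : ℝ) ^ k * (c * (T * ((5 + 8 * k / ε) * (N : ℝ) ^ (ε / 2)))) :=
          mul_le_mul_of_nonneg_left (mul_le_mul_of_nonneg_left h2 hc0) (by positivity)
      _ = B * T := by
          rw [hB, hC0, hc, h4]
          ring
  obtain ⟨E, hE1, hE2, hE3⟩ := markovZ (PT N k) (fun p => ∏ i, a (p i)) kT lT (Finset.Icc (1 : ℤ) (k * N : ℕ))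
    (by
      intro p hp
      have hp' := mem_PT.1 hp
      rw [mem_Icc]
      unfold kT
      have h1 : 1 ≤ ∑ i, p i := by
        calc 1 ≤ p ⟨0, hk⟩ := (mem_Icc.1 (hp' _)).1
          _ ≤ _ := Finset.single_le_sum (fun i _ => Nat.zero_le _) (mem_univ _)
      have h2 : ∑ i, p i ≤ k * N := by
        calc ∑ i, p i ≤ ∑ _i : Fin k, N := Finset.sum_le_sum fun i _ => (mem_Icc.1 (hp' i)).2
          _ = k * N := by simp
      constructor
      · exact_mod_cast h1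
      · exact_mod_cast h2) T hT0 B hB0 hint δ hδ
  refine ⟨E, hE1, hE2, fun t ht htE => ?_⟩
  obtain ⟨h1, h2⟩ := hE3 t ht htE
  have h3 : ∀ α, ‖D N a α t‖ ^ (2 * k) = ‖GG (PT N k) (fun p => ∏ i, a (p i)) kT lT α t‖ ^ 2 := by
    intro α
    rw [← D_pow, norm_pow, ← pow_mul]
    congr 1
    ring
  refine ⟨?_, fun α => ?_⟩
  · simp_rw [h3]
    refine h1.trans ?_
    rw [hB, mul_div_right_comm]
    apply mul_le_mul_of_nonneg_right _ (by positivity)
    apply div_le_div_of_nonneg_right _ hδ.le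
    nlinarith
  · rw [h3]
    refine (h2 α).trans (le_of_eq ?_)
    have h5 : ((Finset.Icc (1 : ℤ) (k * N : ℕ)).card : ℝ) = k * N := by
      rw [Int.card_Icc]
      have : (((k * N : ℕ) : ℤ) + 1 - 1).toNat = k * N := by omega
      rw [this]
      push_cast
      ring
    rw [h5, hB]
    have h6 : (N : ℝ) ^ ((k : ℝ) + 1 + ε) = (N : ℝ) * (N : ℝ) ^ ((k : ℝ) + ε) := by
      rw [show (k : ℝ) + 1 + ε = 1 + ((k : ℝ) + ε) by ring, Real.rpow_add hN0, Real.rpow_one]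
    rw [h6]
    field_simp

end Pool.Agent.X111.AT
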