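import Pool.Agent.X111.AT.Main

/-!
# The sup norm over the additive variable, for almost all `t`
-/

set_option autoImplicit false

namespace Pool.Agent.X111.AT

open Finset MeasureTheory

theorem int_a {ι : Type*} (P : Finset ι) (b : ι → ℂ) (k : ι → ℤ) (lam : ι → ℝ) (u : ℝ) :
    ((∫ α in (0 : ℝ)..1, ‖GG P b k lam α u‖ ^ 2 : ℝ) : ℂ) = ∑ p ∈ P, ∑ q ∈ P,
      ((b p * (starRingEnd ℂ) (b q)) * (if k p - k q = 0 then 1 else 0)) *
      Complex.exp (((u * (lam p - lam q) : ℝ) : ℂ) * Complex.I) := by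
  rw [← intervalIntegral.integral_ofReal]
  simp_rw [sq_GG]
  rw [intervalIntegral.integral_finset_sum]
  · refine sum_congr rfl fun p _ => ?_
    rw [intervalIntegral.integral_finset_sum]
    · refine sum_congr rfl fun q _ => ?_
      rw [intervalIntegral.integral_const_mul, intervalIntegral.integral_mul_const, orth]
      ring
    · intro q _
      apply Continuous.intervalIntegrable
      fun_prop
  · intro p _
    apply Continuous.intervalIntegrable
    fun_prop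

theorem int_ua {ι : Type*} (P : Finset ι) (b : ι → ℂ) (k : ι → ℤ) (lam : ι → ℝ) (U : ℝ) :
    ((∫ u in (0 : ℝ)..U, ∫ α in (0 : ℝ)..1, ‖GG P b k lam α u‖ ^ 2 : ℝ) : ℂ) = ∑ p ∈ P, ∑ q ∈ P,
      ((b p * (starRingEnd ℂ) (b q)) * JJ U (lam p - lam q)) * (if k p - k q = 0 then 1 else 0) := by
  rw [← intervalIntegral.integral_ofReal]
  simp_rw [int_a]
  rw [intervalIntegral.integral_finset_sum]
  · refine sum_congr rfl fun p _ => ?_
    rw [intervalIntegral.integral_finset_sum]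
    · refine sum_congr rfl fun q _ => ?_
      rw [intervalIntegral.integral_const_mul]
      unfold JJ
      ring
    · intro q _
      apply Continuous.intervalIntegrable
      fun_prop
  · intro p _
    apply Continuous.intervalIntegrable
    fun_prop

theorem dmv_ua {ι : Type*} (P : Finset ι) (b : ι → ℂ) (k : ι → ℤ) (lam : ι → ℝ) (U B : ℝ) (hU : 0 ≤ U)
    (hB : ∀ p ∈ P, ‖b p‖ ≤ B) :
    ∫ u in (0 : ℝ)..U, ∫ α in (0 : ℝ)..1, ‖GG P b k lam α u‖ ^ 2 ≤
      B ^ 2 * ∑ p ∈ P, ∑ q ∈ P, if k p = k q then (if lam p = lam q then U else 2 / |lam p - lam q|) else 0 := by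
  have h : ((∫ u in (0 : ℝ)..U, ∫ α in (0 : ℝ)..1, ‖GG P b k lam α u‖ ^ 2 : ℝ) : ℂ) =
      ((∫ α in (0 : ℝ)..1, ∫ u in (0 : ℝ)..U, ‖GG P b k lam α u‖ ^ 2 : ℝ) : ℂ) := by
    rw [int_ua, int_au]
  rw [Complex.ofReal_injective h]
  exact dmv P b k lam U B hU hB

theorem cont_Z {ι : Type*} (P : Finset ι) (b : ι → ℂ) (k : ι → ℤ) (lam : ι → ℝ) :
    Continuous (fun u => ∫ α in (0 : ℝ)..1, ‖GG P b k lam α u‖ ^ 2) := by
  have h : (fun u => ∫ α in (0 : ℝ)..1, ‖GG P b k lam α u‖ ^ 2) = fun u => (∑ p ∈ P, ∑ q ∈ P,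
      ((b p * (starRingEnd ℂ) (b q)) * (if k p - k q = 0 then 1 else 0)) *
      Complex.exp (((u * (lam p - lam q) : ℝ) : ℂ) * Complex.I)).re := by
    ext u
    rw [← int_a, Complex.ofReal_re]
  rw [h]
  exact Complex.continuous_re.comp (by fun_prop)

/-- the coefficients of the square -/
noncomputable def gg {ι : Type*} (P : Finset ι) (b : ι → ℂ) (k : ι → ℤ) (lam : ι → ℝ) (u : ℝ) (s : ℤ) : ℂ :=
  ∑ p ∈ P, if k p = s then b p * Complex.exp (((u * lam p : ℝ) : ℂ) * Complex.I) else 0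

theorem parseval {ι : Type*} (P : Finset ι) (b : ι → ℂ) (k : ι → ℤ) (lam : ι → ℝ) (u : ℝ) (K : Finset ℤ)
    (hK : ∀ p ∈ P, k p ∈ K) :
    ∑ s ∈ K, ‖gg P b k lam u s‖ ^ 2 = ∫ α in (0 : ℝ)..1, ‖GG P b k lam α u‖ ^ 2 := by
  apply Complex.ofReal_injective
  rw [int_a, Complex.ofReal_sum]
  have h1 : ∀ s ∈ K, ((‖gg P b k lam u s‖ ^ 2 : ℝ) : ℂ) = ∑ p ∈ P, ∑ q ∈ P,
      (if k p = s then (1 : ℂ) else 0) * ((if k q = s then (1 : ℂ) else 0) *
        ((b p * (starRingEnd ℂ) (b q)) * Complex.exp (((u * (lam p - lam q) : ℝ) : ℂ) * Complex.I))) := by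
    intro s _
    rw [Complex.ofReal_pow, ← Complex.mul_conj', gg, map_sum, Finset.sum_mul_sum]
    refine sum_congr rfl fun p _ => sum_congr rfl fun q _ => ?_
    split_ifs with e1 e2
    · rw [map_mul, ← Complex.exp_conj, map_mul, Complex.conj_I, Complex.conj_ofReal, mul_mul_mul_comm,
        ← Complex.exp_add, one_mul, one_mul]
      congr 2
      push_cast
      ring
    · simp
    · simp
    · simp
  rw [sum_congr rfl h1, sum_comm]
  refine sum_congr rfl fun p hp => ?_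
  rw [sum_comm]
  refine sum_congr rfl fun q _ => ?_
  rw [Finset.sum_eq_single (k p)]
  · rw [if_pos rfl, one_mul]
    by_cases hk : k p = k q
    · rw [if_pos hk.symm, if_pos (by rw [hk, sub_self]), one_mul, mul_one]
    · rw [if_neg (fun h => hk h.symm), if_neg (sub_ne_zero.2 hk)]
      ring
  · intro s _ hs
    rw [if_neg (fun h => hs h.symm), zero_mul]
  · intro h
    exact absurd (hK p hp) h

theorem GG_eq {ι : Type*} (P : Finset ι) (b : ι → ℂ) (k : ι → ℤ) (lam : ι → ℝ) (α u : ℝ) (K : Finset ℤ)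
    (hK : ∀ p ∈ P, k p ∈ K) :
    GG P b k lam α u = ∑ s ∈ K, Complex.exp (((2 * Real.pi * α * s : ℝ) : ℂ) * Complex.I) *
      gg P b k lam u s := by
  unfold gg GG
  simp_rw [mul_sum]
  rw [sum_comm]
  refine sum_congr rfl fun p hp => ?_
  rw [Finset.sum_eq_single (k p)]
  · rw [if_pos rfl]
    rw [mul_left_comm, ← Complex.exp_add]
    congr 2
    push_cast
    ring
  · intro s _ hs
    rw [if_neg (fun h => hs h.symm), mul_zero]
  · intro h
    exact absurd (hK p hp) h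

theorem sup_le {ι : Type*} (P : Finset ι) (b : ι → ℂ) (k : ι → ℤ) (lam : ι → ℝ) (α u : ℝ) (K : Finset ℤ)
    (hK : ∀ p ∈ P, k p ∈ K) :
    ‖GG P b k lam α u‖ ^ 2 ≤ K.card * ∫ α in (0 : ℝ)..1, ‖GG P b k lam α u‖ ^ 2 := by
  rw [← parseval P b k lam u K hK, GG_eq P b k lam α u K hK]
  have h1 : ‖∑ s ∈ K, Complex.exp (((2 * Real.pi * α * s : ℝ) : ℂ) * Complex.I) * gg P b k lam u s‖ ≤
      ∑ s ∈ K, ‖gg P b k lam u s‖ := by
    refine (norm_sum_le _ _).trans (le_of_eq ?_)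
    refine sum_congr rfl fun s _ => ?_
    rw [norm_mul, Complex.norm_exp_ofReal_mul_I, one_mul]
  calc _ ≤ (∑ s ∈ K, ‖gg P b k lam u s‖) ^ 2 := pow_le_pow_left₀ (norm_nonneg _) h1 2
    _ ≤ _ := sq_sum_le_card_mul_sum_sq

/-- the fourth moment over `α` and the sup norm, for almost all `t` -/
theorem mainSup (N : ℕ) (hN : 1 ≤ N) (T : ℝ) (hT : 0 < T) (a : ℕ → ℂ) (ha : ∀ n, ‖a n‖ ≤ 1)
    (δ : ℝ) (hδ : 0 < δ) : ∃ E : Set ℝ, MeasurableSet E ∧ volume E ≤ ENNReal.ofReal (δ * T) ∧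
      ∀ t ∈ Set.Icc (0 : ℝ) T, t ∉ E →
        ∫ α in (0 : ℝ)..1, ‖D N a α t‖ ^ 4 ≤
          8 / δ * (1 + Real.log N) ^ 2 * ((N : ℝ) ^ 2 + (N : ℝ) ^ 3 / T) ∧
        ∀ α : ℝ, ‖D N a α t‖ ^ 4 ≤
          16 / δ * (1 + Real.log N) ^ 2 * ((N : ℝ) ^ 3 + (N : ℝ) ^ 4 / T) := by
  have hN1 : (1 : ℝ) ≤ N := by exact_mod_cast hN
  have hlog : 0 ≤ Real.log N := Real.log_nonneg hN1
  set L := 1 + Real.log N with hL
  have hL1 : 1 ≤ L := by rw [hL]; linarith
  have hL2 : 1 ≤ L ^ 2 := one_le_pow₀ hL1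
  set b : ℕ × ℕ → ℂ := fun p => a p.1 * a p.2 with hb
  set Z : ℝ → ℝ := fun u => ∫ α in (0 : ℝ)..1, ‖GG (PP N) b kk ll α u‖ ^ 2 with hZ
  have hcZ : Continuous Z := cont_Z _ _ _ _
  have hZn : ∀ u, 0 ≤ Z u := fun u => intervalIntegral.integral_nonneg zero_le_one fun _ _ => by positivity
  have hb1 : ∀ p ∈ PP N, ‖b p‖ ≤ 1 := by
    intro p _
    rw [hb, norm_mul]
    exact mul_le_one₀ (ha _) (norm_nonneg _) (ha _)
  have i1 : ∫ u in (0 : ℝ)..T, Z u ≤ 8 * L ^ 2 * ((N : ℝ) ^ 2 * T + (N : ℝ) ^ 3) := by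
    have h1 := dmv_ua (PP N) b kk ll T 1 hT.le hb1
    rw [one_pow, one_mul] at h1
    refine (h1.trans (count N T hT.le)).trans ?_
    have e3 : 2 * (N : ℝ) ^ 2 * T ≤ 8 * L ^ 2 * ((N : ℝ) ^ 2 * T) := by
      calc 2 * (N : ℝ) ^ 2 * T = 2 * 1 * ((N : ℝ) ^ 2 * T) := by ring
        _ ≤ 8 * L ^ 2 * ((N : ℝ) ^ 2 * T) :=
            mul_le_mul_of_nonneg_right (by linarith) (by positivity)
    rw [← hL]
    nlinarith
  set M : ℝ := 8 / δ * L ^ 2 * ((N : ℝ) ^ 2 + (N : ℝ) ^ 3 / T) with hM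
  have hM0 : 0 < M := by
    have : 0 < L := by linarith
    positivity
  refine ⟨({x | M ≤ Z x} ∩ Set.Ioc 0 T) ∪ {0}, ?_, ?_, ?_⟩
  · exact ((measurableSet_le measurable_const hcZ.measurable).inter measurableSet_Ioc).union
      (measurableSet_singleton 0)
  · refine (measure_union_le _ _).trans ?_
    rw [Real.volume_singleton, add_zero]
    have hint : Integrable Z (volume.restrict (Set.Ioc (0 : ℝ) T)) :=
      (hcZ.continuousOn.integrableOn_compact isCompact_Icc).mono_set Set.Ioc_subset_Icc_self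
    have h1 := mul_meas_ge_le_integral_of_nonneg (μ := volume.restrict (Set.Ioc (0 : ℝ) T))
      (Filter.Eventually.of_forall hZn) hint M
    rw [← intervalIntegral.integral_of_le hT.le] at h1
    have h2 : (volume.restrict (Set.Ioc (0 : ℝ) T)).real {x | M ≤ Z x} ≤ δ * T := by
      have h3 := h1.trans i1
      have h4 : 8 * L ^ 2 * ((N : ℝ) ^ 2 * T + (N : ℝ) ^ 3) = M * (δ * T) := by
        rw [hM]
        field_simp
      rw [h4] at h3
      exact le_of_mul_le_mul_left h3 hM0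
    rw [measureReal_def, Measure.restrict_apply (measurableSet_le measurable_const hcZ.measurable)] at h2
    rw [← ENNReal.ofReal_toReal (a := volume ({x | M ≤ Z x} ∩ Set.Ioc 0 T))
      (ne_top_of_le_ne_top (by simp) (measure_mono Set.inter_subset_right))]
    exact ENNReal.ofReal_le_ofReal h2
  · intro t ht htE
    have hZt : Z t < M := by
      by_contra hc
      push Not at hc
      apply htE
      rcases eq_or_lt_of_le ht.1 with h0 | h0
      · exact Or.inr h0.symm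
      · exact Or.inl ⟨hc, h0, ht.2⟩
    have h3 : ∀ α, ‖D N a α t‖ ^ 4 = ‖GG (PP N) b kk ll α t‖ ^ 2 := by
      intro α
      rw [hb, ← D_sq, norm_pow]
      ring
    refine ⟨?_, fun α => ?_⟩
    · simp_rw [h3]
      exact hZt.le
    · rw [h3]
      have h4 := sup_le (PP N) b kk ll α t (Finset.Icc (1 : ℤ) (2 * N)) (by
        intro p hp
        rw [PP, mem_product, mem_Icc, mem_Icc] at hp
        rw [mem_Icc]
        unfold kk
        push_cast
        constructor <;> omega)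
      have h5 : ((Finset.Icc (1 : ℤ) (2 * N)).card : ℝ) = 2 * N := by
        rw [Int.card_Icc]
        have : (2 * (N : ℤ) + 1 - 1).toNat = 2 * N := by omega
        rw [this]
        push_cast
        ring
      rw [h5] at h4
      refine h4.trans ?_
      calc 2 * (N : ℝ) * (∫ α in (0 : ℝ)..1, ‖GG (PP N) b kk ll α t‖ ^ 2) ≤ 2 * (N : ℝ) * M :=
            mul_le_mul_of_nonneg_left hZt.le (by positivity)
        _ = _ := by
            rw [hM]
            field_simp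
            ring

end Pool.Agent.X111.AT
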